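import Mathlib

/-!
# MP_ab9b99: self-similar `(ℓ,k,d)`-sets

If an `(ℓ,k,d)`-set exists then a self-similar one exists: replace the set `E` by the digit set of
all grid cubes of side `1/n` which meet `E`, for `n` large.
-/

open Set Topology Pointwise

namespace Pool.Agent.Results.MP_ab9b99_an.SelfSimilar

/-- `ℝᵈ` with the Euclidean norm. -/
abbrev Rd (d : ℕ) : Type := EuclideanSpace ℝ (Fin d)

/-- The unit cube `[0,1]ᵈ`. -/
def cube (d : ℕ) : Set (Rd d) := {x | ∀ i, 0 ≤ x i ∧ x i ≤ 1}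

/-- The `ℓ`-fold sumset `ℓK`. -/
def sumset {d : ℕ} (l : ℕ) (K : Set (Rd d)) : Set (Rd d) :=
  {s | ∃ x : Fin l → Rd d, (∀ i, x i ∈ K) ∧ s = ∑ i, x i}

/-- `K` is an `(ℓ,k,d)`-set. -/
def IsLkdSet (l k d : ℕ) (K : Set (Rd d)) : Prop :=
  IsCompact K ∧ K ⊆ cube d ∧
    (∀ A : AffineSubspace ℝ (Rd d), Module.finrank ℝ A.direction = k →
      ((A : Set (Rd d)) ∩ cube d).Nonempty → ((A : Set (Rd d)) ∩ K).Nonempty) ∧
    IsNowhereDense (sumset l K)

/-- `K` is self-similar. -/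
def IsSelfSimilar {d : ℕ} (K : Set (Rd d)) : Prop :=
  K.Nonempty ∧ IsCompact K ∧ ∃ (m : ℕ) (f : Fin m → Rd d → Rd d),
    (∀ i, ∃ r : ℝ, 0 < r ∧ r < 1 ∧ ∀ x y, dist (f i x) (f i y) = r * dist x y) ∧
    K = ⋃ i, f i '' K

variable {d : ℕ}

/-- integer (digit) vector -/
noncomputable def vec {n : ℕ} (δ : Fin d → Fin n) : Rd d :=
  WithLp.toLp 2 (fun i => ((δ i : ℕ) : ℝ))

@[simp] lemma vec_apply {n : ℕ} (δ : Fin d → Fin n) (i : Fin d) :
    vec δ i = ((δ i : ℕ) : ℝ) := rfl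

/-- levels of the construction -/
def Lev (n : ℕ) (D : Set (Fin d → Fin n)) : ℕ → Set (Rd d)
  | 0 => cube d
  | m + 1 => {x | ∃ δ ∈ D, (n : ℝ) • x - vec δ ∈ Lev n D m}

lemma cube_closed : IsClosed (cube d) := by
  have : cube d = ⋂ i : Fin d, {x : Rd d | 0 ≤ x i ∧ x i ≤ 1} := by
    ext x; simp [cube]
  rw [this]
  refine isClosed_iInter fun i => ?_
  have h1 : Continuous fun x : Rd d => x i := by fun_prop
  exact (isClosed_le continuous_const h1).inter (isClosed_le h1 continuous_const)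

lemma cube_compact : IsCompact (cube d) := by
  have h : cube d = (WithLp.toLp 2) '' (Set.pi univ fun _ : Fin d => Icc (0 : ℝ) 1) := by
    ext x
    constructor
    · intro hx
      exact ⟨WithLp.ofLp x, fun i _ => hx i, rfl⟩
    · rintro ⟨y, hy, rfl⟩ i
      exact hy i (mem_univ i)
  rw [h]
  exact (isCompact_univ_pi fun _ => isCompact_Icc).image (PiLp.continuous_toLp 2 _)

lemma lev_closed (n : ℕ) (D : Set (Fin d → Fin n)) (m : ℕ) : IsClosed (Lev n D m) := by
  induction m with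
  | zero => exact cube_closed
  | succ m ih =>
      have : Lev n D (m + 1) = ⋃ δ ∈ D, (fun x : Rd d => (n : ℝ) • x - vec δ) ⁻¹' (Lev n D m) := by
        ext x; simp [Lev]
      rw [this]
      refine (Set.toFinite D).isClosed_biUnion fun δ _ => ih.preimage ?_
      fun_prop

lemma lev_one_sub {n : ℕ} (hn : 0 < n) (D : Set (Fin d → Fin n)) : Lev n D 1 ⊆ cube d := by
  rintro x ⟨δ, _, hx⟩ i
  have h := hx i
  have hn' : (0 : ℝ) < n := by exact_mod_cast hn
  have h2 : ((n : ℝ) • x - vec δ) i = n * x i - ((δ i : ℕ) : ℝ) := by simp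
  rw [h2] at h
  have h3 : ((δ i : ℕ) : ℝ) + 1 ≤ n := by exact_mod_cast (δ i).2
  have h4 : (0 : ℝ) ≤ ((δ i : ℕ) : ℝ) := by positivity
  constructor
  · by_contra hneg
    push Not at hneg
    nlinarith [h.1]
  · by_contra hneg
    push Not at hneg
    nlinarith [h.2]

lemma lev_succ_sub {n : ℕ} (hn : 0 < n) (D : Set (Fin d → Fin n)) (m : ℕ) :
    Lev n D (m + 1) ⊆ Lev n D m := by
  induction m with
  | zero => exact lev_one_sub hn D
  | succ m ih =>
      rintro x ⟨δ, hδ, hx⟩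
      exact ⟨δ, hδ, ih hx⟩

lemma lev_antitone {n : ℕ} (hn : 0 < n) (D : Set (Fin d → Fin n)) : Antitone (Lev n D) :=
  antitone_nat_of_succ_le (lev_succ_sub hn D)

/-- the self-similar set -/
def KK (n : ℕ) (D : Set (Fin d → Fin n)) : Set (Rd d) := ⋂ m, Lev n D m

lemma KK_sub_cube (n : ℕ) (D : Set (Fin d → Fin n)) : KK n D ⊆ cube d :=
  Set.iInter_subset _ 0

lemma KK_compact (n : ℕ) (D : Set (Fin d → Fin n)) : IsCompact (KK n D) :=
  cube_compact.of_isClosed_subset (isClosed_iInter fun m => lev_closed n D m) (KK_sub_cube n D)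

/-- the fixed point equation, forward form -/
lemma KK_step {n : ℕ} (hn : 0 < n) (D : Set (Fin d → Fin n)) {x : Rd d} :
    x ∈ KK n D ↔ ∃ δ ∈ D, (n : ℝ) • x - vec δ ∈ KK n D := by
  classical
  constructor
  · intro hx
    by_contra hcon
    push Not at hcon
    have h1 : ∀ δ : Fin d → Fin n, ∃ m, δ ∈ D → (n : ℝ) • x - vec δ ∉ Lev n D m := by
      intro δ
      by_cases hδ : δ ∈ D
      · have := hcon δ hδ
        simp only [KK, mem_iInter, not_forall] at this
        obtain ⟨m, hm⟩ := this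
        exact ⟨m, fun _ => hm⟩
      · exact ⟨0, fun h => absurd h hδ⟩
    choose m hm using h1
    set M := Finset.univ.sup m with hM
    have hx1 : x ∈ Lev n D (M + 1) := mem_iInter.1 hx _
    obtain ⟨δ, hδ, hxd⟩ := hx1
    exact hm δ hδ (lev_antitone hn D (Finset.le_sup (Finset.mem_univ δ)) hxd)
  · rintro ⟨δ, hδ, hx⟩
    refine mem_iInter.2 fun m => ?_
    cases m with
    | zero => exact lev_one_sub hn D ⟨δ, hδ, mem_iInter.1 hx 0⟩
    | succ m => exact ⟨δ, hδ, mem_iInter.1 hx m⟩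

/-- digits of grid cubes meeting `E` -/
def digits (n : ℕ) (E : Set (Rd d)) : Set (Fin d → Fin n) :=
  {δ | ∃ e ∈ E, ∀ i, ((δ i : ℕ) : ℝ) ≤ n * e i ∧ n * e i ≤ ((δ i : ℕ) : ℝ) + 1}

lemma exists_digit {n : ℕ} (hn : 0 < n) {E : Set (Rd d)} (hE : E ⊆ cube d) {e : Rd d}
    (he : e ∈ E) : ∃ δ ∈ digits n E, (n : ℝ) • e - vec δ ∈ cube d := by
  have hc := hE he
  have hn' : (0 : ℝ) < n := by exact_mod_cast hn
  have h1 : ∀ i, ∃ j : Fin n, ((j : ℕ) : ℝ) ≤ n * e i ∧ n * e i ≤ ((j : ℕ) : ℝ) + 1 := by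
    intro i
    obtain ⟨h0, h1⟩ := hc i
    by_cases hlt : n * e i < n
    · have hnn : 0 ≤ n * e i := by positivity
      refine ⟨⟨⌊n * e i⌋₊, ?_⟩, Nat.floor_le hnn, (Nat.lt_floor_add_one _).le⟩
      rw [Nat.floor_lt hnn]
      exact hlt
    · have heq : n * e i = n := le_antisymm (by nlinarith) (not_lt.1 hlt)
      refine ⟨⟨n - 1, by omega⟩, ?_, ?_⟩
      · rw [heq]
        simp
      · rw [heq]
        have : ((n - 1 : ℕ) : ℝ) + 1 = n := by
          have : ((n - 1 + 1 : ℕ) : ℝ) = n := by rw [Nat.sub_add_cancel hn]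
          push_cast at this
          linarith
        simp only
        linarith
  choose δ hδ using h1
  refine ⟨δ, ⟨e, he, hδ⟩, fun i => ?_⟩
  have h2 : ((n : ℝ) • e - vec δ) i = n * e i - ((δ i : ℕ) : ℝ) := by simp
  rw [h2]
  constructor <;> linarith [(hδ i).1, (hδ i).2]

lemma plane_lev {n k : ℕ} (hn : 0 < n) {E : Set (Rd d)} (hE : E ⊆ cube d)
    (hP : ∀ A : AffineSubspace ℝ (Rd d), Module.finrank ℝ A.direction = k →
      ((A : Set (Rd d)) ∩ cube d).Nonempty → ((A : Set (Rd d)) ∩ E).Nonempty) (m : ℕ) :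
    ∀ A : AffineSubspace ℝ (Rd d), Module.finrank ℝ A.direction = k →
      ((A : Set (Rd d)) ∩ cube d).Nonempty →
      ((A : Set (Rd d)) ∩ Lev n (digits n E) m).Nonempty := by
  have hn' : (0 : ℝ) < n := by exact_mod_cast hn
  induction m with
  | zero => intro A _ h; exact h
  | succ m ih =>
      intro A hA h
      obtain ⟨e, heA, heE⟩ := hP A hA h
      obtain ⟨δ, hδ, hcube⟩ := exists_digit hn hE heE
      set A' : AffineSubspace ℝ (Rd d) := AffineSubspace.mk' ((n : ℝ) • e - vec δ) A.direction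
        with hA'
      have h1 : Module.finrank ℝ A'.direction = k := by
        rw [hA', AffineSubspace.direction_mk']; exact hA
      have h2 : ((A' : Set (Rd d)) ∩ cube d).Nonempty :=
        ⟨_, AffineSubspace.self_mem_mk' _ _, hcube⟩
      obtain ⟨y, hyA, hyL⟩ := ih A' h1 h2
      refine ⟨(n : ℝ)⁻¹ • (y + vec δ), ?_, δ, hδ, ?_⟩
      · have h3 : y -ᵥ ((n : ℝ) • e - vec δ) ∈ A.direction := by
          rw [hA'] at hyA
          exact (AffineSubspace.mem_mk').1 hyA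
        have h4 : (n : ℝ)⁻¹ • (y -ᵥ ((n : ℝ) • e - vec δ)) ∈ A.direction :=
          A.direction.smul_mem _ h3
        have h5 : (n : ℝ)⁻¹ • (y + vec δ) = (n : ℝ)⁻¹ • (y -ᵥ ((n : ℝ) • e - vec δ)) +ᵥ e := by
          rw [vsub_eq_sub, vadd_eq_add, smul_sub, smul_sub, smul_smul, inv_mul_cancel₀ hn'.ne',
            one_smul, smul_add]
          abel
        rw [h5]
        exact AffineSubspace.vadd_mem_of_mem_direction h4 heA
      · rw [smul_smul, mul_inv_cancel₀ hn'.ne', one_smul, add_sub_cancel_right]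
        exact hyL

lemma plane_KK {n k : ℕ} (hn : 0 < n) {E : Set (Rd d)} (hE : E ⊆ cube d)
    (hP : ∀ A : AffineSubspace ℝ (Rd d), Module.finrank ℝ A.direction = k →
      ((A : Set (Rd d)) ∩ cube d).Nonempty → ((A : Set (Rd d)) ∩ E).Nonempty)
    (A : AffineSubspace ℝ (Rd d)) (hA : Module.finrank ℝ A.direction = k)
    (h : ((A : Set (Rd d)) ∩ cube d).Nonempty) :
    ((A : Set (Rd d)) ∩ KK n (digits n E)).Nonempty := by
  have hAc : IsClosed (A : Set (Rd d)) := A.closed_of_finiteDimensional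
  have h1 : (⋂ m, ((A : Set (Rd d)) ∩ Lev n (digits n E) m)).Nonempty := by
    refine IsCompact.nonempty_iInter_of_sequence_nonempty_isCompact_isClosed _ ?_ ?_ ?_ ?_
    · intro m
      exact inter_subset_inter_right _ (lev_succ_sub hn _ m)
    · intro m
      exact plane_lev hn hE hP m A hA h
    · exact (cube_compact.of_isClosed_subset (hAc.inter cube_closed) inter_subset_right)
    · intro m
      exact hAc.inter (lev_closed n _ m)
  rw [← inter_iInter] at h1
  exact h1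

/-- integer points -/
def Lam (d : ℕ) : Set (Rd d) := {x | ∀ i, ∃ z : ℤ, x i = z}

lemma Lam_closed : IsClosed (Lam d) := by
  have : Lam d = ⋂ i : Fin d, (fun x : Rd d => x i) ⁻¹' (Set.range ((↑) : ℤ → ℝ)) := by
    ext x; simp [Lam, eq_comm]
  rw [this]
  refine isClosed_iInter fun i => ?_
  have h1 : Continuous fun x : Rd d => x i := by fun_prop
  exact (Int.isClosedEmbedding_coe_real.isClosed_range).preimage h1

lemma sumset_compact {l : ℕ} {K : Set (Rd d)} (hK : IsCompact K) : IsCompact (sumset l K) := by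
  have h : sumset l K = (fun x : Fin l → Rd d => ∑ i, x i) '' (Set.pi univ fun _ => K) := by
    ext s
    constructor
    · rintro ⟨x, hx, rfl⟩
      exact ⟨x, fun i _ => hx i, rfl⟩
    · rintro ⟨x, hx, rfl⟩
      exact ⟨x, fun i => hx i (mem_univ i), rfl⟩
  rw [h]
  exact (isCompact_univ_pi fun _ => hK).image (by fun_prop)

lemma norm_le_of_coord (x : Rd d) {c : ℝ} (hc : 0 ≤ c) (h : ∀ i, |x i| ≤ c) :
    ‖x‖ ≤ (d + 1) * c := by
  rw [EuclideanSpace.norm_eq]
  have h1 : ∑ i, ‖x i‖ ^ 2 ≤ ∑ _i : Fin d, c ^ 2 := by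
    refine Finset.sum_le_sum fun i _ => ?_
    rw [Real.norm_eq_abs]
    exact pow_le_pow_left₀ (abs_nonneg _) (h i) 2
  have h2 : ∑ _i : Fin d, c ^ 2 = d * c ^ 2 := by simp
  rw [h2] at h1
  rw [Real.sqrt_le_left (by positivity)]
  refine h1.trans ?_
  have hd : (0 : ℝ) ≤ d := by positivity
  have : (d : ℝ) ≤ (d + 1) ^ 2 := by nlinarith
  calc (d : ℝ) * c ^ 2 ≤ (d + 1) ^ 2 * c ^ 2 := by gcongr
    _ = ((d + 1) * c) ^ 2 := by ring

/-- `n ^ m s` for `s` in the sumset -/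
lemma sumset_step {n l : ℕ} (hn : 0 < n) (D : Set (Fin d → Fin n)) (m : ℕ) {s : Rd d}
    (hs : s ∈ sumset l (KK n D)) :
    ∃ t ∈ sumset l (KK n D), ∃ δ : Fin l → (Fin d → Fin n), (∀ j, δ j ∈ D) ∧
      ∃ z ∈ Lam d, (n : ℝ) ^ (m + 1) • s = t + ∑ j, vec (δ j) + (n : ℝ) • z := by
  have key : ∀ s ∈ sumset l (KK n D), ∃ t ∈ sumset l (KK n D), ∃ δ : Fin l → (Fin d → Fin n),
      (∀ j, δ j ∈ D) ∧ (n : ℝ) • s = t + ∑ j, vec (δ j) := by
    rintro s ⟨x, hx, rfl⟩
    have h1 : ∀ j, ∃ δ ∈ D, (n : ℝ) • x j - vec δ ∈ KK n D := fun j => (KK_step hn D).1 (hx j)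
    choose δ hδ hxd using h1
    refine ⟨∑ j, ((n : ℝ) • x j - vec (δ j)), ⟨_, hxd, rfl⟩, δ, hδ, ?_⟩
    rw [Finset.sum_sub_distrib, Finset.smul_sum, sub_add_cancel]
  induction m with
  | zero =>
      obtain ⟨t, ht, δ, hδ, h⟩ := key s hs
      refine ⟨t, ht, δ, hδ, 0, fun i => ⟨0, by simp⟩, ?_⟩
      rw [zero_add, pow_one, h, smul_zero, add_zero]
  | succ m ih =>
      obtain ⟨t, ht, δ, hδ, z, hz, h⟩ := ih
      obtain ⟨t', ht', δ', hδ', h'⟩ := key t ht
      refine ⟨t', ht', δ', hδ', ∑ j, vec (δ j) + (n : ℝ) • z, ?_, ?_⟩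
      · intro i
        obtain ⟨zi, hzi⟩ := hz i
        refine ⟨∑ j, ((δ j i : ℕ) : ℤ) + n * zi, ?_⟩
        push_cast
        simp [hzi]
      · rw [pow_succ', mul_smul, h, smul_add, smul_add, h', smul_add]
        abel

lemma sumset_box {l : ℕ} {K : Set (Rd d)} (hK : K ⊆ cube d) {s : Rd d} (hs : s ∈ sumset l K)
    (i : Fin d) : 0 ≤ s i ∧ s i ≤ l := by
  obtain ⟨x, hx, rfl⟩ := hs
  have h1 : (∑ j, x j) i = ∑ j, x j i := by simp
  rw [h1]
  constructor
  · exact Finset.sum_nonneg fun j _ => (hK (hx j) i).1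
  · calc ∑ j, x j i ≤ ∑ _j : Fin l, (1 : ℝ) := Finset.sum_le_sum fun j _ => (hK (hx j) i).2
      _ = l := by simp

/-- integer vector -/
noncomputable def zvec (z : Fin d → ℤ) : Rd d := WithLp.toLp 2 (fun i => (z i : ℝ))

@[simp] lemma zvec_apply (z : Fin d → ℤ) (i : Fin d) : zvec z i = (z i : ℝ) := rfl

/-- the periodised sumset is closed and not everything -/
lemma exists_gap {l : ℕ} {E : Set (Rd d)} (hE : IsCompact E) (hN : IsNowhereDense (sumset l E)) :
    ∃ x0 : Rd d, ∃ ε > 0, ∀ s ∈ sumset l E, ∀ z ∈ Lam d, ε ≤ dist x0 (s + z) := by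
  have hS : IsCompact (sumset l E) := sumset_compact hE
  have hSi : interior (sumset l E) = ∅ := by
    have := hN
    rw [IsNowhereDense, hS.isClosed.closure_eq] at this
    exact this
  set F : Set (Rd d) := sumset l E + Lam d with hF
  have hFc : IsClosed F := Lam_closed.add_left_of_isCompact hS
  have hFne : F ≠ univ := by
    intro hu
    have hcl : ∀ z : Fin d → ℤ, IsClosed ((fun x : Rd d => x - zvec z) ⁻¹' (sumset l E)) :=
      fun z => hS.isClosed.preimage (by fun_prop)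
    have hU : (⋃ z : Fin d → ℤ, (fun x : Rd d => x - zvec z) ⁻¹' (sumset l E)) = univ := by
      refine eq_univ_of_forall fun x => ?_
      have hx : x ∈ F := by rw [hu]; trivial
      obtain ⟨s, hs, z, hz, rfl⟩ := Set.mem_add.1 hx
      choose zi hzi using hz
      refine mem_iUnion.2 ⟨zi, ?_⟩
      have : z = zvec zi := by
        ext i; simp [hzi]
      simpa [this] using hs
    obtain ⟨z, hz⟩ := nonempty_interior_of_iUnion_of_closed hcl hU
    have h1 : (fun x : Rd d => x - zvec z) ⁻¹' (interior (sumset l E)) =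
        interior ((fun x : Rd d => x - zvec z) ⁻¹' (sumset l E)) :=
      (Homeomorph.subRight (zvec z)).preimage_interior _
    rw [← h1, hSi] at hz
    simp at hz
  obtain ⟨x0, hx0⟩ := (Set.ne_univ_iff_exists_notMem F).1 hFne
  obtain ⟨ε, hε, hball⟩ := Metric.isOpen_iff.1 hFc.isOpen_compl x0 hx0
  refine ⟨x0, ε, hε, fun s hs z hz => ?_⟩
  by_contra hlt
  push Not at hlt
  have h2 : s + z ∈ Metric.ball x0 ε := by rw [Metric.mem_ball, dist_comm]; exact hlt
  exact hball h2 (Set.add_mem_add hs hz)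

lemma nowhere_dense_KK {l : ℕ} {E : Set (Rd d)} (hE : IsCompact E)
    (hN : IsNowhereDense (sumset l E)) :
    ∃ n : ℕ, 2 ≤ n ∧ IsNowhereDense (sumset l (KK n (digits n E))) := by
  obtain ⟨x0, ε, hε, hgap⟩ := exists_gap hE hN
  obtain ⟨n0, hn0⟩ := exists_nat_gt (((d : ℝ) + 1) * l / ε)
  set n := n0 + 2 with hn
  have hnpos : 0 < n := by omega
  have hn' : (0 : ℝ) < n := by exact_mod_cast hnpos
  have hsmall : ((d : ℝ) + 1) * (l / n) < ε := by
    have h1 : ((d : ℝ) + 1) * l / ε < n := by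
      refine hn0.trans ?_
      rw [hn]; push_cast; linarith
    rw [div_lt_iff₀ hε] at h1
    rw [← mul_div_assoc, div_lt_iff₀ hn']
    linarith
  refine ⟨n, by omega, ?_⟩
  set D := digits n E with hD
  set K := KK n D with hK
  have hKc : IsCompact (sumset l K) := sumset_compact (KK_compact n D)
  rw [IsNowhereDense, hKc.isClosed.closure_eq]
  by_contra hne
  obtain ⟨s0, hs0⟩ := Set.nonempty_iff_ne_empty.2 hne
  obtain ⟨ρ, hρ, hball⟩ := Metric.isOpen_iff.1 isOpen_interior s0 hs0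
  have hn1 : (1 : ℝ) < n := by exact_mod_cast (by omega : 1 < n)
  obtain ⟨m, hm⟩ := pow_unbounded_of_one_lt (((d : ℝ) + 1) / ρ) hn1
  have hnm : (0 : ℝ) < (n : ℝ) ^ m := by positivity
  set z' : Rd d := zvec (fun i => ⌊((n : ℝ) ^ m • s0 - x0) i⌋) with hz'
  have hz'L : z' ∈ Lam d := fun i => ⟨_, rfl⟩
  set s : Rd d := ((n : ℝ) ^ m)⁻¹ • (x0 + z') with hs
  have hdist : dist s s0 < ρ := by
    have h1 : s - s0 = ((n : ℝ) ^ m)⁻¹ • (x0 + z' - (n : ℝ) ^ m • s0) := by
      rw [hs, smul_sub, smul_smul, inv_mul_cancel₀ hnm.ne', one_smul]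
    have h2 : ‖x0 + z' - (n : ℝ) ^ m • s0‖ ≤ (d + 1) * 1 := by
      refine norm_le_of_coord _ zero_le_one fun i => ?_
      have h3 : (x0 + z' - (n : ℝ) ^ m • s0) i =
          (⌊((n : ℝ) ^ m • s0 - x0) i⌋ : ℝ) - ((n : ℝ) ^ m • s0 - x0) i := by
        simp [hz']; ring
      rw [h3, abs_le]
      constructor
      · linarith [Int.lt_floor_add_one (((n : ℝ) ^ m • s0 - x0) i)]
      · linarith [Int.floor_le (((n : ℝ) ^ m • s0 - x0) i)]
    rw [dist_eq_norm, h1, norm_smul, Real.norm_eq_abs, abs_of_pos (by positivity)]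
    rw [div_lt_iff₀ hρ] at hm
    calc ((n : ℝ) ^ m)⁻¹ * ‖x0 + z' - (n : ℝ) ^ m • s0‖
        ≤ ((n : ℝ) ^ m)⁻¹ * ((d + 1) * 1) := by gcongr
      _ < ((n : ℝ) ^ m)⁻¹ * ((n : ℝ) ^ m * ρ) := by
          rw [mul_one]
          exact mul_lt_mul_of_pos_left hm (by positivity)
      _ = ρ := by rw [← mul_assoc, inv_mul_cancel₀ hnm.ne', one_mul]
  have hsK : s ∈ sumset l K := interior_subset (hball (Metric.mem_ball.2 hdist))
  obtain ⟨t, ht, δ, hδ, z, hz, heq⟩ := sumset_step hnpos D m hsK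
  choose e he hed using hδ
  have heq2 : x0 + z' = (n : ℝ)⁻¹ • (t + ∑ j, vec (δ j)) + z := by
    have h1 : (n : ℝ) ^ (m + 1) • s = (n : ℝ) • (x0 + z') := by
      rw [hs, pow_succ', mul_smul, smul_smul ((n : ℝ) ^ m), mul_inv_cancel₀ hnm.ne', one_smul]
    rw [h1] at heq
    have h2 : (n : ℝ)⁻¹ • ((n : ℝ) • (x0 + z')) = x0 + z' := by
      rw [smul_smul, inv_mul_cancel₀ hn'.ne', one_smul]
    rw [← h2, heq, smul_add, smul_smul, inv_mul_cancel₀ hn'.ne', one_smul]
  have hmem : (∑ j, e j) ∈ sumset l E := ⟨e, he, rfl⟩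
  have hzz : z - z' ∈ Lam d := by
    intro i
    obtain ⟨a, ha⟩ := hz i
    obtain ⟨b, hb⟩ := hz'L i
    exact ⟨a - b, by simp [ha, hb]⟩
  have h3 := hgap _ hmem _ hzz
  have h4 : dist x0 (∑ j, e j + (z - z')) ≤ (d + 1) * (l / n) := by
    rw [dist_eq_norm]
    refine norm_le_of_coord _ (by positivity) fun i => ?_
    have h5 : x0 i + z' i = (n : ℝ)⁻¹ * (t i + ∑ j, ((δ j i : ℕ) : ℝ)) + z i := by
      have := congrArg (fun x : Rd d => x i) heq2
      simpa [mul_add] using this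
    have h6 : (x0 - (∑ j, e j + (z - z'))) i =
        (n : ℝ)⁻¹ * t i + ∑ j, ((n : ℝ)⁻¹ * ((δ j i : ℕ) : ℝ) - e j i) := by
      have h7 : (x0 - (∑ j, e j + (z - z'))) i = x0 i - (∑ j, e j i + (z i - z' i)) := by simp
      rw [h7, Finset.sum_sub_distrib, ← Finset.mul_sum]
      linarith
    rw [h6]
    have ht0 := sumset_box (KK_sub_cube n D) ht i
    have hj : ∀ j, -(1 / (n : ℝ)) ≤ (n : ℝ)⁻¹ * ((δ j i : ℕ) : ℝ) - e j i ∧
        (n : ℝ)⁻¹ * ((δ j i : ℕ) : ℝ) - e j i ≤ 0 := by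
      intro j
      obtain ⟨h8, h9⟩ := hed j i
      constructor
      · rw [← sub_nonneg]
        have : (n : ℝ)⁻¹ * ((δ j i : ℕ) : ℝ) - e j i - -(1 / (n : ℝ)) =
            (n : ℝ)⁻¹ * (((δ j i : ℕ) : ℝ) + 1 - n * e j i) := by
          field_simp
          ring
        rw [this]
        exact mul_nonneg (by positivity) (by linarith)
      · rw [← sub_nonneg]
        have : 0 - ((n : ℝ)⁻¹ * ((δ j i : ℕ) : ℝ) - e j i) =
            (n : ℝ)⁻¹ * (n * e j i - ((δ j i : ℕ) : ℝ)) := by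
          field_simp
          ring
        rw [this]
        exact mul_nonneg (by positivity) (by linarith)
    have hsum1 : -((l : ℝ) / n) ≤ ∑ j, ((n : ℝ)⁻¹ * ((δ j i : ℕ) : ℝ) - e j i) := by
      calc -((l : ℝ) / n) = ∑ _j : Fin l, -(1 / (n : ℝ)) := by
            simp [div_eq_mul_inv]
        _ ≤ _ := Finset.sum_le_sum fun j _ => (hj j).1
    have hsum2 : ∑ j, ((n : ℝ)⁻¹ * ((δ j i : ℕ) : ℝ) - e j i) ≤ 0 :=
      Finset.sum_nonpos fun j _ => (hj j).2
    have ht1 : 0 ≤ (n : ℝ)⁻¹ * t i := mul_nonneg (by positivity) ht0.1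
    have ht2 : (n : ℝ)⁻¹ * t i ≤ l / n := by
      rw [div_eq_inv_mul]
      exact mul_le_mul_of_nonneg_left ht0.2 (by positivity)
    rw [abs_le]
    constructor <;> linarith
  linarith

lemma exists_plane {k d : ℕ} (hk : k ≤ d) :
    ∃ V : Submodule ℝ (Rd d), Module.finrank ℝ V = k := by
  have hli : LinearIndependent ℝ
      ((EuclideanSpace.basisFun (Fin d) ℝ).toBasis ∘ Fin.castLE hk) :=
    (EuclideanSpace.basisFun (Fin d) ℝ).toBasis.linearIndependent.comp _
      (Fin.castLE_injective hk)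
  exact ⟨_, by rw [finrank_span_eq_card hli, Fintype.card_fin]⟩

lemma KK_selfSimilar {n : ℕ} (hn : 2 ≤ n) (D : Set (Fin d → Fin n)) (hne : (KK n D).Nonempty) :
    IsSelfSimilar (KK n D) := by
  classical
  have hn' : (0 : ℝ) < n := by
    have : 0 < n := by omega
    exact_mod_cast this
  have hn1 : (1 : ℝ) < n := by exact_mod_cast (by omega : 1 < n)
  refine ⟨hne, KK_compact n D, Fintype.card {δ // δ ∈ D},
    fun i x => (n : ℝ)⁻¹ • (x + vec ((Fintype.equivFin {δ // δ ∈ D}).symm i).1), ?_, ?_⟩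
  · intro i
    refine ⟨(n : ℝ)⁻¹, by positivity, inv_lt_one_of_one_lt₀ hn1, fun x y => ?_⟩
    rw [dist_smul₀, dist_add_right, Real.norm_eq_abs, abs_of_pos (by positivity)]
  · ext x
    rw [KK_step (by omega) D]
    simp only [mem_iUnion, mem_image]
    constructor
    · rintro ⟨δ, hδ, hx⟩
      refine ⟨Fintype.equivFin {δ // δ ∈ D} ⟨δ, hδ⟩, _, hx, ?_⟩
      simp only [Equiv.symm_apply_apply, sub_add_cancel]
      rw [smul_smul, inv_mul_cancel₀ hn'.ne', one_smul]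
    · rintro ⟨i, y, hy, rfl⟩
      refine ⟨((Fintype.equivFin {δ // δ ∈ D}).symm i).1,
        ((Fintype.equivFin {δ // δ ∈ D}).symm i).2, ?_⟩
      rw [smul_smul, mul_inv_cancel₀ hn'.ne', one_smul, add_sub_cancel_right]
      exact hy

/-- **Answer to Q1.** For all positive integers `ℓ, k, d` with `k ≤ d`, if an `(ℓ,k,d)`-set exists,
then a self-similar `(ℓ,k,d)`-set exists. -/
theorem result (l k d : ℕ) (_hl : 0 < l) (_hk : 0 < k) (hkd : k ≤ d)
    (h : ∃ E : Set (Rd d), IsLkdSet l k d E) :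
    ∃ K : Set (Rd d), IsSelfSimilar K ∧ IsLkdSet l k d K := by
  obtain ⟨E, hEc, hE, hP, hN⟩ := h
  obtain ⟨n, hn, hnd⟩ := nowhere_dense_KK hEc hN
  have hn0 : 0 < n := by omega
  have hplane := fun A hA h => plane_KK (k := k) hn0 hE hP A hA h
  have hne : (KK n (digits n E)).Nonempty := by
    obtain ⟨V, hV⟩ := exists_plane hkd
    obtain ⟨x, -, hx⟩ := hplane (AffineSubspace.mk' (0 : Rd d) V)
      (by rw [AffineSubspace.direction_mk']; exact hV)
      ⟨0, AffineSubspace.self_mem_mk' _ _, fun i => by simp⟩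
    exact ⟨x, hx⟩
  exact ⟨KK n (digits n E), KK_selfSimilar hn _ hne, KK_compact n _, KK_sub_cube n _, hplane, hnd⟩

end Pool.Agent.Results.MP_ab9b99_an.SelfSimilar
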